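import Pool.Agent.Helper72.SA.WalkD
import Pool.Agent.Helper72SE.Ch2
import Pool.Agent.Helper72SE.Dec
import Pool.Agent.Helper72SE.Tr1

/-!
# Unique games: Sherali-Adams linear programs or small non-expanding sets

For every unique game (any constraint graph, any finite alphabet) and every `δ` and `r`: if the pure
Sherali-Adams linear program (no semidefinite constraint) of level of the order `n ^ r / (δ c ^ 2)`
has a solution of value at least `1 - ε`, then some labeling satisfies a fraction `1 - c` of the
edges, or the constraint graph contains a set of at most a fraction `δ` of the volume with expansion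
less than `φ = 512 (ε / (c r)) ^ (1 / 2)`. So all instances that are hard for these linear programs
contain small sets that do not expand, at every scale `δ`; for `δ = n ^ (- r)` the sets are of
polynomially small volume. In particular gap unique games on graphs whose small sets expand are
decided at level `n ^ (O(ε))`, and by the integrality gap instances of Charikar, Makarychev and
Makarychev on random (expanding) graphs an exponent linear in `ε` cannot be avoided.

Second case: for every time `T` the level `N e ^ (2 ^ 16 ε T / c) / c ^ 2`, up to a constant factor,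
is enough on every graph, where `N` is the sum over the vertices of the probabilities that the
random walk is back after `2 T` steps, that is, the sum of the powers `2 T` of its eigenvalues;
`N ≤ k + n λ ^ (2 T)` if `k` eigenvalues exceed `λ` in absolute value.

Idea of the proof. Sherali-Adams makes the correlation matrix of any `D` vertices positive
semidefinite. Applied to independent samples of the random walk this gives perturbed log-convexity
of the autocorrelation along the walk, hence global correlation at time `T`, which conditioning
removes. If all sets of a fraction `δ` of the volume have expansion at least `φ`, then a local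
Cheeger inequality for pairs of functions (the walk is not assumed to be lazy) shows that the
`L ^ 2` norm of the density of the walk decreases by the factor `1 - φ ^ 2 / 4` in every step until
`N = O(1 / δ)`, at a time `T` of the order `log n / φ ^ 2`.
-/

namespace Pool.Agent.Results.MP_325f1f_lc.SheraliAdamsDichotomy

open Finset

/-- `f` depends only on the labels of the vertices in `S`. -/
def DependsOn {W A : Type} (S : Finset W) (f : (W → A) → ℝ) : Prop :=
  ∀ x y : W → A, (∀ v ∈ S, x v = y v) → f x = f y

/-- `L` is a solution of the Sherali-Adams linear program of level `D`: a normalised linear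
functional on the functions of a labeling which is nonnegative on all nonnegative functions of at
most `D` labels. Only the values of `L` on functions of at most `D` labels matter: they are the
expectations for a family of probability distributions on the labelings of the sets of at most `D`
vertices which are consistent on intersections. -/
structure IsSheraliAdams {W A : Type} (D : ℕ) (L : ((W → A) → ℝ) →ₗ[ℝ] ℝ) : Prop where
  one : L (fun _ => 1) = 1
  nonneg : ∀ S : Finset W, S.card ≤ D → ∀ f : (W → A) → ℝ, DependsOn S f → (∀ x, 0 ≤ f x) →
    0 ≤ L f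

/-- The degree of a vertex of the graph with the edges `(s e, t e)`; loops count twice. -/
def deg {V E : Type} [DecidableEq V] [Fintype E] (s t : E → V) (v : V) : ℝ :=
  ((univ.filter fun e => s e = v).card : ℝ) + ((univ.filter fun e => t e = v).card : ℝ)

/-- The probability that the random walk on the graph with the edges `(s e, t e)` which starts in
`u` is in `v` after `k` steps. (It is `0` for `k ≥ 1` if `u` is an isolated vertex.) -/
noncomputable def walk {V E : Type} [DecidableEq V] [Fintype E] (s t : E → V) : ℕ → V → V → ℝ
  | 0, u, v => if u = v then 1 else 0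
  | k + 1, u, v => (∑ e, ((if s e = u then walk s t k (t e) v else 0) +
      (if t e = u then walk s t k (s e) v else 0))) / deg s t u

theorem walk_eq {V E : Type} [Fintype V] [DecidableEq V] [Fintype E] (s t : E → V) (k : ℕ)
    (u v : V) : walk s t k u v =
      Pool.Agent.Helper72.SA.wk (Pool.Agent.H647R3.UG.wt s t) k u v := by
  induction k generalizing u with
  | zero => rfl
  | succ k ih =>
    unfold walk Pool.Agent.Helper72.SA.wk
    simp only [ih]
    rw [Pool.Agent.Helper72.SA.wt_sum]
    congr 1
    obtain ⟨-, -, hwd, -⟩ := Pool.Agent.H647R3.UG.T_WT V E s t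
    rw [hwd]
    rfl

/-- Consider a unique game with vertices `V`, `n = |V| ≥ 2`, labels `A`, edges `(s e, t e)` and
permutations `π e`. Let `0 < c ≤ 1`, `0 ≤ ε ≤ c / 2 ^ 15`, and let `L` be a solution of value at
least `1 - ε` of the Sherali-Adams linear program of level `D`. Then some labeling satisfies at
least a fraction `1 - c` of the edges in each of the following cases.

(1) `D ≥ 2 ^ 26 n ^ (2 ^ 18 ε / (c φ ^ 2)) / (δ c ^ 2) + 10 log (8 log n / φ ^ 2)`, where
`0 < φ ≤ 1` and `0 < δ ≤ 1` are such that for every set `S` of vertices of volume `vol S` (the sum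
of the degrees) at most `δ vol V` there are at least `φ vol S` edges with exactly one end in `S`.

(2) `D ≥ 2 ^ 19 N e ^ (2 ^ 16 ε T / c) / c ^ 2 + 10 log T`, where `T ≥ 1`, and `N ≥ 1` is at least
the sum over the vertices of the probabilities that the random walk on the constraint graph is back
after `2 T` steps. -/
theorem result (V A E : Type) [Fintype V] [DecidableEq V] [Fintype A] [DecidableEq A] [Fintype E]
    (s t : E → V) (π : E → Equiv.Perm A) (c ε : ℝ) (D : ℕ) (L : ((V → A) → ℝ) →ₗ[ℝ] ℝ)
    (hc : 0 < c) (hc1 : c ≤ 1) (hε : 0 ≤ ε) (hεc : ε ≤ c / 2 ^ 15) (hn : 2 ≤ Fintype.card V)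
    (hL : IsSheraliAdams D L)
    (hval : (1 - ε) * (Fintype.card E : ℝ) ≤
      ∑ e, L (fun z => if π e (z (s e)) = z (t e) then 1 else 0))
    (hD : (∃ φ δ : ℝ, 0 < φ ∧ φ ≤ 1 ∧ 0 < δ ∧ δ ≤ 1 ∧
        (∀ S : Finset V, ∑ v ∈ S, deg s t v ≤ δ * ∑ v, deg s t v →
          φ * ∑ v ∈ S, deg s t v ≤
            ((univ.filter fun e => ¬ (s e ∈ S ↔ t e ∈ S)).card : ℝ)) ∧
        2 ^ 26 * (Fintype.card V : ℝ) ^ (2 ^ 18 * ε / (c * φ ^ 2)) / (δ * c ^ 2) +
          10 * Real.log (8 * Real.log (Fintype.card V) / φ ^ 2) ≤ D) ∨
      ∃ (T : ℕ) (N : ℝ), 1 ≤ T ∧ 1 ≤ N ∧ ∑ u, walk s t (2 * T) u u ≤ N ∧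
        2 ^ 19 * N * Real.exp (2 ^ 16 * ε * T / c) / c ^ 2 + 10 * Real.log T ≤ D) :
    ∃ x : V → A, (1 - c) * (Fintype.card E : ℝ) ≤
      ((univ.filter fun e => π e (x (s e)) = x (t e)).card : ℝ) := by
  have hL' : Pool.Agent.Helper72.SA.SAh D L := ⟨hL.one, hL.nonneg⟩
  have hεc' : ε ≤ c / 32768 := by
    norm_num at hεc
    exact hεc
  rcases hD with ⟨φ, δ, hφ, hφ1, hδ, hδ1, hS, hD⟩ | ⟨T, N, hT, hN, hwN, hD⟩
  · have h := Pool.Agent.Helper72.SA.partC (Pool.Agent.Helper72.SA.t_TR1
      (Pool.Agent.Helper72.SA.t_DEC Pool.Agent.Helper72.SA.t_CH2)) s t π c ε φ δ D hc hc1 hε hεc'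
      hφ hφ1 hδ hδ1 hn hD L hL' hval
    obtain ⟨-, -, -, -, hwsum, -⟩ := Pool.Agent.H647R3.UG.T_WT V E s t
    rcases h with h | ⟨S, h1, h2, h3⟩
    · exact h
    · have e : ∑ v, deg s t v = 2 * (Fintype.card E : ℝ) := hwsum
      exact absurd (hS S (by rw [e]; exact h2)) (not_le.2 h3)
  · refine Pool.Agent.Helper72.SA.partA s t π c ε N T D hc hc1 hε hεc' hN hT ?_ ?_ L hL' hval
    · simp only [walk_eq] at hwN
      exact hwN
    · refine le_trans (le_of_eq ?_) hD
      ring

end Pool.Agent.Results.MP_325f1f_lc.SheraliAdamsDichotomy
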