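import Pool.Agent.Helper72.SA.TopR

/-!
# Sherali-Adams linear programs for unique games on graphs with small-set expansion

Polylogarithmic level of the Sherali-Adams hierarchy (linear programs, no semidefinite constraint,
any alphabet) is enough for unique games whose constraint graph has small-set expansion at all
scales: of every set `S` at most a fraction `a μ(S) ^ κ` of the edges at `S` stays in `S`, where
`μ(S)` is the fraction of the volume. Noisy hypercubes, the constraint graphs of the known
integrality gap instances of semidefinite programs, are of this kind (`a = 1`, `κ` constant, by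
hypercontractivity). If the linear program of level of the order
`C(a, κ) (log n) ^ (2 ^ 18 ε / (κ c)) / c ^ 2` has a solution of value at least `1 - ε`, then some
labeling has value at least `1 - c`. For general graphs Sherali-Adams is only known to work at
levels which are powers of `n`.

Idea of the proof. Sherali-Adams makes the correlation matrix of any `D` vertices positive
semidefinite. Applied to independent samples of the random walk on the constraint graph this gives
perturbed log-convexity of the autocorrelation along the walk, which is therefore not small at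
time `T`; by the Cauchy-Schwarz inequality the average of the squared correlations of two vertices
is at least of the order `e ^ (- C ε T / c) / N`, where `N` is the trace of the power `2 T` of the
transition matrix, unless the variances are small, and conditioning decreases the variances; so
the level `N e ^ (C ε T / c) / c ^ 2` is enough for every time `T`. Small-set expansion is turned
into a Nash inequality (real interpolation: the Lorentz norm `L ^ (p, 1)` is bounded by the norms
of `L ^ 1` and `L ^ 2`), which bounds the return probabilities: `N = O(1)` at a time `T` of the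
order `log log n`.
-/

namespace Pool.Agent.Results.MP_325f1f_lc.SheraliAdamsExpansion

open Finset

/-- `f` depends only on the labels of the vertices in `S`. -/
def DependsOn {W A : Type} (S : Finset W) (f : (W → A) → ℝ) : Prop :=
  ∀ x y : W → A, (∀ v ∈ S, x v = y v) → f x = f y

/-- `L` is a solution of the Sherali-Adams linear program of level `D`: a normalised linear
functional on the functions of a labeling which is nonnegative on all nonnegative functions of at
most `D` labels. Only the values of `L` on functions of at most `D` labels matter: they are the
expectations for a family of probability distributions on the labelings of the sets of at most `D`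
vertices which are consistent on intersections. -/
structure IsSheraliAdams {W A : Type} (D : ℕ) (L : ((W → A) → ℝ) →ₗ[ℝ] ℝ) : Prop where
  one : L (fun _ => 1) = 1
  nonneg : ∀ S : Finset W, S.card ≤ D → ∀ f : (W → A) → ℝ, DependsOn S f → (∀ x, 0 ≤ f x) →
    0 ≤ L f

/-- The degree of a vertex of the graph with the edges `(s e, t e)`; loops count twice. -/
def deg {V E : Type} [DecidableEq V] [Fintype E] (s t : E → V) (v : V) : ℝ :=
  ((univ.filter fun e => s e = v).card : ℝ) + ((univ.filter fun e => t e = v).card : ℝ)

/-- Consider a unique game with `|V| ≥ 3` vertices, labels `A`, edges `(s e, t e)` and permutations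
`π e`, such that for some `a ≥ 1` and `0 < κ ≤ 1` every set `S` of vertices satisfies
`2 |E(S)| ≤ a (vol S / vol V) ^ κ vol S`, where `E(S)` is the set of the edges with both ends in
`S`, `vol S` is the sum of the degrees of the vertices in `S`, and `vol V = 2 |E|`. Let `0 < c ≤ 1`,
`0 ≤ ε ≤ c / 2 ^ 15`, and let the Sherali-Adams linear program of level
`D ≥ 2 ^ 24 (98 a ^ (1 / 4) / κ ^ 2) ^ (4 / κ) (log |V|) ^ (2 ^ 18 ε / (κ c)) / c ^ 2 +
10 log log |V|`
have a solution of value at least `1 - ε`. Then some labeling satisfies at least a fraction `1 - c`
of the edges. -/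
theorem result (V A E : Type) [Fintype V] [DecidableEq V] [Fintype A] [DecidableEq A] [Fintype E]
    (s t : E → V) (π : E → Equiv.Perm A) (c ε a κ : ℝ) (D : ℕ) (L : ((V → A) → ℝ) →ₗ[ℝ] ℝ)
    (hc : 0 < c) (hc1 : c ≤ 1) (hε : 0 ≤ ε) (hεc : ε ≤ c / 2 ^ 15) (ha : 1 ≤ a) (hκ : 0 < κ)
    (hκ1 : κ ≤ 1) (hn : 3 ≤ Fintype.card V)
    (hSE : ∀ S : Finset V, 2 * ((univ.filter fun e => s e ∈ S ∧ t e ∈ S).card : ℝ) ≤
      a * ((∑ v ∈ S, deg s t v) / (2 * Fintype.card E)) ^ κ * ∑ v ∈ S, deg s t v)
    (hD : 2 ^ 24 * (98 * a ^ (1 / 4 : ℝ) / κ ^ 2) ^ (4 / κ) *
      Real.log (Fintype.card V) ^ (2 ^ 18 * ε / (κ * c)) / c ^ 2 +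
      10 * Real.log (Real.log (Fintype.card V)) ≤ D)
    (hL : IsSheraliAdams D L)
    (hval : (1 - ε) * (Fintype.card E : ℝ) ≤
      ∑ e, L (fun z => if π e (z (s e)) = z (t e) then 1 else 0)) :
    ∃ x : V → A, (1 - c) * (Fintype.card E : ℝ) ≤
      ((univ.filter fun e => π e (x (s e)) = x (t e)).card : ℝ) := by
  have hL' : Pool.Agent.Helper72.SA.SAh D L := ⟨hL.one, hL.nonneg⟩
  have hεc' : ε ≤ c / 32768 := by
    norm_num at hεc
    exact hεc
  refine Pool.Agent.Helper72.SA.partB s t π c ε a κ D hc hc1 hε hεc' ha hκ hκ1 hn hSE ?_ L hL'
    hval
  refine le_trans (le_of_eq ?_) hD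
  ring

end Pool.Agent.Results.MP_325f1f_lc.SheraliAdamsExpansion
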