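import Pool.Agent.Helper72.SA.Near

/-!
# Sherali-Adams linear programs for unique games: completeness near one, small soundness

The Sherali-Adams linear program of level `D` of a unique game (no semidefinite constraint, any
alphabet), of value at least `1 - ε`, is rounded to a labeling of value `Ω(δ)`, if `D` is at least
of the order `n ^ (25 x log (2 / x)) + log (1 / ε)` with `x = 2 ^ 15 ε / log (1 / δ)`, where `n` is
the number of the vertices of one side.

Idea of the proof. A soft part of the graph is given by a variational problem, and has a reversible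
chain with a one-step `L ^ p` to `L ^ 2` inequality. If the variances in the part are not small
then we need a lower bound of the average of the squared correlations of the pairs of vertices; in
the presence of the semidefinite constraint it follows from the log-convexity of the autocorrelation
along the chain. Sherali-Adams gives only that the correlation matrix of any `D` vertices is positive
semidefinite. We apply this to independent samples of the chain, which gives perturbed log-convexity
(`Pool/Agent/Helper72/SA/Samp.lean`): first the energy grows at most by the factor `2 + O(1 / D)`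
when the time is doubled, and after the time `1 / ε` the perturbed log-convexity of a sequence with
ratios at least `1 / 2` is used.
-/

namespace Pool.Agent.Results.MP_325f1f_lc.SheraliAdamsSmallSoundness

open Finset

/-- `f` depends only on the labels of the vertices in `S`. -/
def DependsOn {W A : Type} (S : Finset W) (f : (W → A) → ℝ) : Prop :=
  ∀ x y : W → A, (∀ v ∈ S, x v = y v) → f x = f y

/-- `L` is a solution of the Sherali-Adams linear program of level `D`: a normalised linear
functional on the functions of a labeling which is nonnegative on all nonnegative functions of at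
most `D` labels. Only the values of `L` on functions of at most `D` labels matter: they are the
expectations for a family of probability distributions on the labelings of the sets of at most `D`
vertices which are consistent on intersections. -/
structure IsSheraliAdams {W A : Type} (D : ℕ) (L : ((W → A) → ℝ) →ₗ[ℝ] ℝ) : Prop where
  one : L (fun _ => 1) = 1
  nonneg : ∀ S : Finset W, S.card ≤ D → ∀ f : (W → A) → ℝ, DependsOn S f → (∀ x, 0 ≤ f x) →
    0 ≤ L f

/-- Consider a unique game with left vertices `U`, right vertices `V`, labels `A` and edges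
`(s e, t e)` with permutations `π e`. Let `0 < ε ≤ 2 ^ (-18)`, `1 / |U| ≤ δ` and
`x = 2 ^ 15 ε / log (1 / δ) ≤ 1 / 2`. If the Sherali-Adams linear program of level
`D ≥ 2 ^ 23 (|U| ^ (25 x log (2 / x)) + log (1 / ε))` has a solution of value at least `1 - ε`, then
some labeling satisfies at least a fraction `δ / 2 ^ 13` of the edges. -/
theorem result (U V A E : Type) [Fintype U] [Fintype V] [Fintype A] [DecidableEq A] [Fintype E]
    (s : E → U) (t : E → V) (π : E → Equiv.Perm A) (ε δ x : ℝ) (D : ℕ)
    (L : ((U ⊕ V → A) → ℝ) →ₗ[ℝ] ℝ) (hε : 0 < ε) (hε1 : ε ≤ 1 / 2 ^ 18) (hδ : 0 < δ)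
    (hδ1 : δ < 1) (hδn : 1 / (Fintype.card U : ℝ) ≤ δ) (hU : 0 < Fintype.card U)
    (hx : x = 2 ^ 15 * ε / Real.log (1 / δ)) (hx1 : x ≤ 1 / 2)
    (hD : 2 ^ 23 * ((Fintype.card U : ℝ) ^ (25 * (x * Real.log (2 / x))) + Real.log (1 / ε)) ≤ D)
    (hL : IsSheraliAdams D L)
    (hval : (1 - ε) * (Fintype.card E : ℝ) ≤
      ∑ e, L (fun z => if π e (z (Sum.inl (s e))) = z (Sum.inr (t e)) then 1 else 0)) :
    ∃ (f : U → A) (g : V → A), δ / 2 ^ 13 * (Fintype.card E : ℝ) ≤
      ((univ.filter fun e => π e (f (s e)) = g (t e)).card : ℝ) := by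
  classical
  have hn0 : (0 : ℝ) < Fintype.card U := by exact_mod_cast hU
  have hn1 : (1 : ℝ) ≤ Fintype.card U := by exact_mod_cast hU
  obtain ⟨l, hl⟩ : ∃ l, l = Real.log (1 / δ) := ⟨_, rfl⟩
  have hl0 : 0 < l := by
    rw [hl]
    exact Real.log_pos (by rw [lt_div_iff₀ hδ]; linarith)
  have hln : l ≤ Real.log (Fintype.card U) := by
    rw [hl]
    refine Real.log_le_log (by positivity) ?_
    rw [div_le_iff₀ hδ]
    rw [div_le_iff₀ hn0] at hδn
    linarith
  have hel : Real.exp (-l) = δ := by
    rw [hl, one_div, Real.log_inv, neg_neg, Real.exp_log hδ]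
  rw [← hl] at hx
  have hx0 : 0 < x := by rw [hx]; positivity
  have hq0 : 0 < 24576 * ε / l := by positivity
  have hqx : 24576 * ε / l ≤ x := by
    rw [hx]
    exact div_le_div_of_nonneg_right (by linarith) hl0.le
  have hll : 24576 * ε ≤ l := by
    have : 24576 * ε / l ≤ 1 := by linarith
    rwa [div_le_one hl0] at this
  have hmono := Pool.Agent.N625.US.xlog_mono hq0 hqx hx1
  have hlogx : 0 ≤ Real.log (2 / x) := Real.log_nonneg (by rw [le_div_iff₀ hx0]; linarith)
  obtain ⟨X, hX⟩ : ∃ X, X = (Fintype.card U : ℝ) ^ (25 * (x * Real.log (2 / x))) := ⟨_, rfl⟩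
  rw [← hX] at hD
  have hX1 : 1 ≤ X := by
    rw [hX]
    exact Real.one_le_rpow hn1 (by positivity)
  have hXq : (Fintype.card U : ℝ) ^ (25 * (24576 * ε / l * Real.log (2 / (24576 * ε / l)))) ≤ X := by
    rw [hX]
    exact Real.rpow_le_rpow_of_exponent_le hn1 (by linarith)
  have hlogε : 0 ≤ Real.log (1 / ε) :=
    Real.log_nonneg (by rw [le_div_iff₀ hε]; norm_num at hε1; linarith)
  obtain ⟨k, hk⟩ : ∃ k : ℕ, k = ⌈2 ^ 22 * X⌉₊ := ⟨_, rfl⟩
  obtain ⟨M, hM⟩ : ∃ M : ℕ, M = ⌈128 * X + 5 * Real.log (1 / ε)⌉₊ := ⟨_, rfl⟩
  have hk1 : 2 ^ 22 * X ≤ k := by rw [hk]; exact Nat.le_ceil _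
  have hk2 : (k : ℝ) < 2 ^ 22 * X + 1 := by rw [hk]; exact Nat.ceil_lt_add_one (by positivity)
  have hM1 : 128 * X + 5 * Real.log (1 / ε) ≤ M := by rw [hM]; exact Nat.le_ceil _
  have hM2 : (M : ℝ) < 128 * X + 5 * Real.log (1 / ε) + 1 := by
    rw [hM]; exact Nat.ceil_lt_add_one (by positivity)
  have hkD : k + (M + M) ≤ D := by
    have h : ((k + (M + M) : ℕ) : ℝ) ≤ D := by
      push_cast
      norm_num at hk2 hM2 hD ⊢
      linarith
    exact_mod_cast h
  have hL' : Pool.Agent.Helper72.SA.SAh (k + (M + M)) L :=
    ⟨hL.one, fun S hS => hL.nonneg S (hS.trans hkD)⟩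
  have hlogτ : Real.log (1 / (24576 * ε)) ≤ Real.log (1 / ε) := by
    refine Real.log_le_log (by positivity) ?_
    exact one_div_le_one_div_of_le hε (by linarith)
  obtain ⟨f, g, hfg⟩ := Pool.Agent.Helper72.SA.core_near s t π ε l _ hε
    (hε1.trans (by norm_num)) hll hln rfl k M
    (le_trans (mul_le_mul_of_nonneg_left hXq (by norm_num)) hk1)
    (le_trans (mul_le_mul_of_nonneg_left hXq (by norm_num)) (by linarith))
    (by linarith) L hL' hval
  refine ⟨f, g, ?_⟩
  rw [hel] at hfg
  exact hfg

end Pool.Agent.Results.MP_325f1f_lc.SheraliAdamsSmallSoundness
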