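import Pool.Agent.Helper72.SA.MainK

/-!
# Sherali-Adams linear programs for unique games: the trade-off between level and loss

The Sherali-Adams linear program of level about `n ^ r` (no semidefinite constraint, any alphabet)
of a unique game on `n` vertices, of value at least `1 - ε`, is rounded to a labeling of value at
least `1 - O(√(ε log (2 / r) / r))`.

Idea of the proof. The graph is divided by a variational problem into soft parts, the reversible
chains of which (lazy, and absorbed at the boundary of the part) have a one-step `L ^ p` to `L ^ 2`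
inequality. If the variances in a part are not small then we need a lower bound `n ^ (-r)` for the
average of the squared correlations of the pairs of vertices, to gain by conditioning. With a
semidefinite constraint it follows from the log-convexity of the autocorrelation along the chain.
Sherali-Adams gives only that the correlation matrix of any `D` vertices is positive semidefinite.
We apply this to independent samples of the absorbed chain, which gives a perturbed log-convexity
(`Pool/Agent/Helper72/SA/Sub.lean`, `Pool/Agent/Helper72/SA/Kill.lean`).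
-/

namespace Pool.Agent.Results.MP_325f1f_lc.SheraliAdamsTradeoff

open Finset

/-- `f` depends only on the labels of the vertices in `S`. -/
def DependsOn {V A : Type} (S : Finset V) (f : (V → A) → ℝ) : Prop :=
  ∀ x y : V → A, (∀ v ∈ S, x v = y v) → f x = f y

/-- `L` is a solution of the Sherali-Adams linear program of level `D`: a normalised linear
functional on the functions of a labeling which is nonnegative on all nonnegative functions of at
most `D` labels. Only the values of `L` on functions of at most `D` labels matter: they are the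
expectations for a family of probability distributions on the labelings of the sets of at most `D`
vertices which are consistent on intersections. -/
structure IsSheraliAdams {V A : Type} (D : ℕ) (L : ((V → A) → ℝ) →ₗ[ℝ] ℝ) : Prop where
  one : L (fun _ => 1) = 1
  nonneg : ∀ S : Finset V, S.card ≤ D → ∀ f : (V → A) → ℝ, DependsOn S f → (∀ x, 0 ≤ f x) →
    0 ≤ L f

/-- For every unique game (any finite alphabet, any constraint graph on `n` vertices) and all
`0 < r ≤ 1`, `0 < γ < 1`, `ε` with `2 ^ 33 * ε * log (2 / r) ≤ r * γ ^ 2`: if the Sherali-Adams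
linear program of level `D ≥ 2 ^ 36 * log (2 / γ) * (n ^ r + log (n + 1))` has a solution of value
at least `1 - ε`, then some labeling satisfies at least a fraction `1 - γ` of the edges. -/
theorem result (V A E : Type) [Fintype V] [Fintype A] [DecidableEq A] [Fintype E]
    (s t : E → V) (π : E → Equiv.Perm A) (r γ ε : ℝ) (D : ℕ) (L : ((V → A) → ℝ) →ₗ[ℝ] ℝ)
    (hr : 0 < r) (hr1 : r ≤ 1) (hγ : 0 < γ) (hγ1 : γ < 1)
    (hεγ : 2 ^ 33 * (ε * Real.log (2 / r)) ≤ r * γ ^ 2)
    (hD : 2 ^ 36 * (Real.log (2 / γ) * ((Fintype.card V : ℝ) ^ r +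
      Real.log ((Fintype.card V : ℝ) + 1))) ≤ D)
    (hL : IsSheraliAdams D L)
    (hval : (1 - ε) * (Fintype.card E : ℝ)
      ≤ ∑ e, L (fun x => if π e (x (s e)) = x (t e) then 1 else 0)) :
    ∃ x : V → A, (1 - γ) * (Fintype.card E : ℝ)
      ≤ ((univ.filter fun e => π e (x (s e)) = x (t e)).card : ℝ) := by
  classical
  rcases isEmpty_or_nonempty V with hV | hV
  · have hE : IsEmpty E := ⟨fun e => hV.false (s e)⟩
    exact ⟨fun v => (hV.false v).elim, by simp⟩
  obtain ⟨n, hn⟩ : ∃ n : ℝ, n = (Fintype.card V : ℝ) := ⟨_, rfl⟩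
  have hn1 : 1 ≤ n := by
    rw [hn]
    exact_mod_cast Fintype.card_pos
  rw [← hn] at hD
  have hl2 := Real.log_two_gt_d9
  have hexp1 := Real.exp_one_lt_d9
  have hlog1 : 1 ≤ Real.log (n + 2) := by
    rw [Real.le_log_iff_exp_le (by linarith)]
    linarith
  have hlogN : 0 ≤ Real.log (n + 1) := Real.log_nonneg (by linarith)
  have hΛ : 0 ≤ Real.log (2 / γ) := Real.log_nonneg (by rw [le_div_iff₀ hγ]; linarith)
  obtain ⟨r', hr'⟩ : ∃ r' : ℝ, r' = max r (1 / Real.log (n + 2)) := ⟨_, rfl⟩
  have hrr' : r ≤ r' := by rw [hr']; exact le_max_left _ _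
  have hr'0 : 0 < r' := hr.trans_le hrr'
  have hr'1 : r' ≤ 1 := by
    rw [hr']
    refine max_le hr1 ?_
    rw [div_le_one (by linarith)]
    exact hlog1
  have hnr : 1 ≤ n ^ r := Real.one_le_rpow hn1 hr.le
  have hpow : n ^ r' ≤ 3 * n ^ r := by
    rcases le_total (1 / Real.log (n + 2)) r with h | h
    · rw [hr', max_eq_left h]
      linarith
    · have h1 : n ^ r' ≤ (n + 2) ^ r' := Real.rpow_le_rpow (by linarith) (by linarith) hr'0.le
      have h2 : (n + 2) ^ r' = Real.exp 1 := by
        rw [Real.rpow_def_of_pos (by linarith), hr', max_eq_right h,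
          mul_one_div_cancel (by linarith)]
      linarith
  obtain ⟨ε', hε'⟩ : ∃ ε' : ℝ, ε' = r' * γ ^ 2 / (8589934592 * Real.log (2 / r')) := ⟨_, rfl⟩
  have hlog2 : Real.log (2 / r') ≤ Real.log (2 / r) :=
    Real.log_le_log (by positivity) (by gcongr)
  have hlog3 : 0 < Real.log (2 / r') := Real.log_pos (by rw [lt_div_iff₀ hr'0]; linarith)
  have hεε' : ε ≤ ε' := by
    rw [hε', le_div_iff₀ (by positivity)]
    have h2 : r * γ ^ 2 ≤ r' * γ ^ 2 := mul_le_mul_of_nonneg_right hrr' (sq_nonneg _)
    rcases le_total 0 ε with h | h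
    · have h1 := mul_le_mul_of_nonneg_left hlog2 h
      norm_num at hεγ
      linarith
    · have h1 : ε * (8589934592 * Real.log (2 / r')) ≤ 0 :=
        mul_nonpos_of_nonpos_of_nonneg h (by positivity)
      have h3 : 0 ≤ r' * γ ^ 2 := by positivity
      linarith
  refine Pool.Agent.Helper72.SA.coreK s t π r' γ ε' hr'1 hγ hγ1 ?_ hε' D ?_ L
    ⟨hL.one, fun S hS => hL.nonneg S hS⟩ ?_
  · rw [← hn, hr']
    exact le_max_right _ _
  · rw [← hn]
    refine le_trans ?_ hD
    have h1 : Real.log (2 / γ) * (n ^ r' + Real.log (n + 1)) ≤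
        Real.log (2 / γ) * (3 * (n ^ r + Real.log (n + 1))) :=
      mul_le_mul_of_nonneg_left (by linarith) hΛ
    have h2 : 0 ≤ Real.log (2 / γ) * (n ^ r + Real.log (n + 1)) :=
      mul_nonneg hΛ (by linarith)
    norm_num
    linarith
  · refine le_trans (mul_le_mul_of_nonneg_right (by linarith) (Nat.cast_nonneg _)) hval

end Pool.Agent.Results.MP_325f1f_lc.SheraliAdamsTradeoff
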